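import Mathlib

/-!
Upper bound for the number of combinatorial types of `d`-polytopes (MP_18b2cf_co): definitions.
Vectors `v i : Fin (d+1) → ℝ` (homogenised points), functionals `φ` act by the dot product.
-/

set_option autoImplicit false

namespace Pool.Agent.H54.Up

open Matrix Finset

/-- A polynomial function of degree at most `k`. -/
def PolyFn {σ : Type*} (k : ℕ) (f : (σ → ℝ) → ℝ) : Prop :=
  ∃ p : MvPolynomial σ ℝ, p.totalDegree ≤ k ∧ ∀ x, f x = MvPolynomial.eval x p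

/-- Homogenised `d`-space. -/
abbrev Vc (d : ℕ) := Fin (d + 1) → ℝ

variable {d : ℕ} {ι : Type*}

/-- Determinant of `d + 1` vectors. -/
noncomputable def dt (u : Fin (d + 1) → Vc d) : ℝ := (Matrix.of u).det

/-- General position: any `d + 1` distinct members are linearly independent. -/
def Gen (v : ι → Vc d) : Prop :=
  ∀ t : Fin (d + 1) → ι, Function.Injective t → dt (fun i => v (t i)) ≠ 0

/-- The cross product of `d` vectors: `y ⬝ᵥ crossv u = dt (Fin.cons y u)`. -/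
noncomputable def crossv (u : Fin d → Vc d) : Vc d :=
  fun i => dt (Fin.cons (Pi.single i 1) u)

/-- `F` is (the vertex set of) a facet of the configuration `v` restricted to `S`. -/
def IsFacet (v : ι → Vc d) (S F : Finset ι) : Prop :=
  F ⊆ S ∧ F.card = d ∧ ∃ φ : Vc d, (∀ i ∈ F, φ ⬝ᵥ v i = 0) ∧ ∀ i ∈ S, i ∉ F → 0 < φ ⬝ᵥ v i

/-- `φ` spans an extreme ray of the cone of functionals that are nonnegative on `v`. -/
def Ext (v : ι → Vc d) (φ : Vc d) : Prop :=
  φ ≠ 0 ∧ (∀ i, 0 ≤ φ ⬝ᵥ v i) ∧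
    ∀ χ : Vc d, (∀ i, φ ⬝ᵥ v i = 0 → χ ⬝ᵥ v i = 0) → ∃ c : ℝ, χ = c • φ

/-- `v` spans. -/
def Spn (v : ι → Vc d) : Prop := ∀ φ : Vc d, (∀ i, φ ⬝ᵥ v i = 0) → φ = 0

/-- The zero sets of nonnegative functionals (the faces). -/
def ZS (v : ι → Vc d) : Set (Set ι) :=
  {T | ∃ φ : Vc d, (∀ i, 0 ≤ φ ⬝ᵥ v i) ∧ T = {i | φ ⬝ᵥ v i = 0}}

/-- The family `L` of `d`-tuples catches every facet of `v`. -/
def Catch (L : Set (Fin d → ι)) (v : ι → Vc d) : Prop :=
  ∀ φ : Vc d, Ext v φ → ∃ g ∈ L, (∀ k, φ ⬝ᵥ v (g k) = 0) ∧ LinearIndependent ℝ (fun k => v (g k))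

/-- Exponential weights. -/
noncomputable def wt {X : Type*} [DecidableEq X] {n : ℕ} (W : Fin n → Finset X) (i : ℕ) (F : X) : ℝ :=
  2 ^ ((univ.filter (fun j : Fin n => (j : ℕ) < i ∧ F ∈ W j)).card)

/-- Sequences of sets, each taken from the list offered for the current weights. -/
def Seqs {X : Type*} [DecidableEq X] (𝒲 : (X → ℝ) → Finset (Finset X)) (n : ℕ) :
    Set (Fin n → Finset X) := {W | ∀ i : Fin n, W i ∈ 𝒲 (wt W i)}

end Pool.Agent.H54.Up
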